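import Pool.Agent.H61.BRX.Stmts

set_option autoImplicit false

namespace Pool.STN

theorem asm_mod (m k : ℕ) (hk : 1 ≤ k) (hp : ∀ i, F^[i + k] m = F^[i] m) (s i : ℕ) :
    ∃ r, r < k ∧ F^[i + r] m = F^[s] m := by
  refine ⟨(s + i * (k - 1)) % k, Nat.mod_lt _ hk, ?_⟩
  have hper : Function.Periodic (fun i => F^[i] m) k := fun i => hp i
  have h1 : ∀ n, F^[n % k] m = F^[n] m := fun n => hper.map_mod_nat n
  rw [← h1 (i + (s + i * (k - 1)) % k), ← h1 s]
  have h2 : (i + (s + i * (k - 1)) % k) % k = s % k := by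
    rw [Nat.add_mod_mod]
    obtain ⟨q, rfl⟩ : ∃ q, k = q + 1 := ⟨k - 1, by omega⟩
    have : i + (s + i * (q + 1 - 1)) = s + i * (q + 1) := by
      rw [Nat.add_sub_cancel]; ring
    rw [this, Nat.add_mul_mod_self_right]
  rw [h2]

theorem ASM_thm (h1 : TRIStmt) (h2 : LOWStmt) (h3 : LGSStmt) (h4 : SUMStmt) (h5 : NMLStmt)
    (h6 : SQRStmt) (h7 : WINStmt) (h8 : CNTStmt) (h9 : ARIStmt) : ASMStmt := by
  obtain ⟨N, hN⟩ := h2
  obtain ⟨C, hC, hA⟩ := h9 N
  refine ⟨C, hC, ?_⟩
  intro m k hm hk hcyc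
  obtain ⟨t1, t2, t3, -, -, -⟩ := h1 m k hm hk hcyc
  obtain ⟨n1, n2, n3, n4⟩ := h5 m k hm hk hcyc
  rw [n1]
  -- the least element
  obtain ⟨s, hs⟩ : ∃ s, ∀ i, F^[s] m ≤ F^[i] m := by
    have hne : (Set.range fun i => F^[i] m).Nonempty := ⟨_, ⟨0, rfl⟩⟩
    obtain ⟨s, hs⟩ := Nat.sInf_mem hne
    refine ⟨s, fun i => ?_⟩
    have h : sInf (Set.range fun i => F^[i] m) ≤ F^[i] m := Nat.sInf_le ⟨i, rfl⟩
    have hs' : F^[s] m = sInf (Set.range fun i => F^[i] m) := hs
    rw [hs']
    exact h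
  have hds : ¬ dd m s := by
    intro hd
    have := (t3 s).2 hd
    have h' := hs (s + 1)
    omega
  -- all elements
  have hall : ∀ i, F^[i] m ≤ (F^[s] m) ^ (2 ^ nm m k) := by
    intro i
    obtain ⟨r, hr, hrs⟩ := asm_mod m k hk t2 s i
    have hd : ¬ dd m (i + r) := by
      intro hd
      apply hds
      unfold dd at hd ⊢
      rw [hrs] at hd
      exact hd
    have h := h6 m t1 (i + r) i (Nat.le_add_right _ _) hd
    rw [hrs] at h
    refine h.trans ?_
    apply Nat.pow_le_pow_right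
    · have := t1 s
      omega
    · apply Nat.pow_le_pow_right (by norm_num)
      have hper : Function.Periodic (fun j => sw m j) k := by
        intro j
        show sw m (j + k) = sw m j
        unfold sw dd
        have e : j + k + 1 = (j + 1) + k := by ring
        rw [e, t2 j, t2 (j + 1)]
      have hc := Nat.filter_Ico_card_eq_of_periodic i k (fun j => sw m j) hper
      rw [Nat.count_eq_card_filter_range] at hc
      unfold nm
      rw [← hc]
      apply Finset.card_le_card
      apply Finset.filter_subset_filter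
      apply Finset.Ico_subset_Ico_right
      omega
  have hk2 : ((Finset.range k).filter fun i => dd m i).card +
      ((Finset.range k).filter fun i => ¬ dd m i).card = k := by
    have := Finset.card_filter_add_card_filter_not (s := Finset.range k) (fun i => dd m i)
    rw [Finset.card_range] at this
    exact this
  have hLk : nm m k ≤ k := by
    unfold nm
    refine (Finset.card_filter_le _ _).trans ?_
    rw [Finset.card_range]
  have hXr : (0 : ℝ) < (F^[s] m : ℝ) := by
    have := t1 s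
    exact_mod_cast (by omega : 0 < F^[s] m)
  have hXle : F^[s] m ≤ 3 * nm m k * k ^ N := by
    have e1 := hN _ _ n4 n3
    have e2 := h3 m k t1 hcyc
    have e3 := h4 m k t1 t2 (F^[s] m : ℝ) hXr (fun i => by exact_mod_cast hs i)
    have hkk : (((((Finset.range k).filter fun i => ¬ dd m i).card +
        ((Finset.range k).filter fun i => dd m i).card : ℕ)) : ℝ) = k := by
      have : ((Finset.range k).filter fun i => ¬ dd m i).card +
        ((Finset.range k).filter fun i => dd m i).card = k := by omega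
      exact_mod_cast this
    rw [hkk] at e1
    have hk0 : (0 : ℝ) ≤ (k : ℝ) ^ N := by positivity
    have e4 : (1 : ℝ) ≤ (k : ℝ) ^ N * (7 / 3 * (nm m k : ℝ) / (F^[s] m : ℝ)) :=
      e1.trans (mul_le_mul_of_nonneg_left (e2.trans e3) hk0)
    have e5 : (F^[s] m : ℝ) ≤ 7 / 3 * (nm m k : ℝ) * (k : ℝ) ^ N := by
      have : (k : ℝ) ^ N * (7 / 3 * (nm m k : ℝ) / (F^[s] m : ℝ)) =
        (7 / 3 * (nm m k : ℝ) * (k : ℝ) ^ N) / (F^[s] m : ℝ) := by ring
      rw [this, le_div_iff₀ hXr, one_mul] at e4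
      exact e4
    have e6 : (F^[s] m : ℝ) ≤ 3 * (nm m k : ℝ) * (k : ℝ) ^ N := by
      refine e5.trans ?_
      have : (0 : ℝ) ≤ (nm m k : ℝ) * (k : ℝ) ^ N := by positivity
      nlinarith
    exact_mod_cast e6
  refine hA k (nm m k) (F^[s] m) m (by omega) n2 hLk (t1 s) hXle ?_ (hall 0)
  intro B hB
  have hw := h7 m B t1 (fun i => (hall i).trans hB)
  exact h8 (fun j => sw m j) k (7 * B + 7) (by omega) hw

end Pool.STN
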