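import Pool.Agent.H72.STN.DIO
import Pool.Agent.H22.STN.DIV
import Pool.Agent.H18.STN.IVL
import Pool.Agent.H89.STN.JBD
import Pool.Agent.H89.STN.CBD
import Pool.Agent.H20.STN.NZR
import Pool.Agent.H38.STN.LCB
import Pool.Agent.H28.STN.PZQ
import Pool.Agent.H56.STN.INT
import Pool.Agent.H46.STN.PBD
import Pool.Agent.H31.STN.NAD
import Pool.Agent.H24.STN.NLN
import Pool.Agent.H54.STN.NRC
import Pool.Agent.H14.STN.NUP
import Pool.Agent.H89.STN.ITP
import Pool.Agent.H22.STN.MUL
import Pool.Agent.H62.STN.MLB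
import Pool.Agent.H45.STN.LC0
import Pool.Agent.H1.STN.TRI
import Pool.Agent.H41.STN.FEQ

set_option autoImplicit false

namespace Pool.STN

/-- the lower bound for the linear form, with all its parts -/
theorem brx_dio : DIOStmt := by
  have hPZQ := PZQ_thm
  have hNAD := NAD_thm
  have hNLN := NLN_thm hNAD
  have hNRC := NRC_thm hNAD hNLN
  have hNUP := NUP_thm hNRC
  exact DIO_thm (DIV_thm hPZQ INT_thm) (IVL_thm hPZQ) (JBD_thm PBD_thm) CBD_thm
    (NZR_thm hNAD hNLN hNUP ITP_thm) (LCB_thm MUL_thm MLB_thm lc0_thm)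

end Pool.STN
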