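import Pool.Agent.H61.BRX.DIOAll
import Pool.Agent.H61.BRX.EFF
import Pool.Agent.H50.BRX.SQR
import Pool.Agent.H51.BRX.WIN

set_option autoImplicit false

namespace Pool.STN

/-- the theorem for Collatz's permutation in the form of the problem -/
theorem brx_main (h1 : TRIStmt) (h2 : LOWStmt) (h3 : LGSStmt) (h4 : SUMStmt) (h5 : NMLStmt)
    (h6 : SQRStmt) (h7 : WINStmt) (h8 : CNTStmt) (h9 : ARIStmt) (h10 : FEQStmt) :
    ∃ (C : ℝ) (D : ℕ), 0 < C ∧ ∀ f : ℕ → ℕ,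
      (∀ n : ℕ, 1 ≤ n → f (3 * n) = 2 * n ∧ f (3 * n - 1) = 4 * n - 1 ∧
        f (3 * n - 2) = 4 * n - 3) →
      ∀ m k : ℕ, 2 ≤ m → 1 ≤ k → f^[k] m = m →
        (∃ j, f^[j] m ≤ k ^ D) ∧
        (k : ℝ) ≤ Real.exp (C * ((Finset.range k).filter fun j =>
          f^[j + 1] m < f^[j] m ∧ f^[j + 1] m < f^[j + 2] m).card) ∧
        (m : ℝ) ≤ Real.exp (Real.exp (C * ((Finset.range k).filter fun j =>
          f^[j + 1] m < f^[j] m ∧ f^[j + 1] m < f^[j + 2] m).card)) := by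
  obtain ⟨C, D, hC, h⟩ := EFF_thm h1 h2 h3 h4 h5 h6 h7 h8 h9
  refine ⟨C, D, hC, ?_⟩
  intro f hf m k hm hk hcyc
  have hF : ∀ i, f^[i] m = F^[i] m := fun i => (h10 f hf m (by omega) i).1
  have hcyc' : F^[k] m = m := by rw [← hF k]; exact hcyc
  have e := h m k hm hk hcyc'
  have el : ((Finset.range k).filter fun j =>
      f^[j + 1] m < f^[j] m ∧ f^[j + 1] m < f^[j + 2] m).card = lm F m k := by
    unfold lm
    congr 1
    apply Finset.filter_congr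
    intro j _
    rw [hF, hF, hF]
  rw [el]
  obtain ⟨⟨j, hj⟩, e2, e3⟩ := e
  exact ⟨⟨j, by rw [hF]; exact hj⟩, e2, e3⟩

end Pool.STN
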