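import Pool.Agent.H78.STN.Stmts

/-!
# Board BRX: finite cycles of Collatz's permutation with few local minima (MP_9010c3)

THEOREM.  There is `C > 0` such that every cycle `f^[k] m = m`, `m ≥ 2`, of Collatz's permutation with `L`
local minima (indices `j < k`) satisfies `k ≤ exp (C L)` and `m ≤ exp (exp (C L))`.

PROOF.  Notation: `x_i = F^[i] m`, `X` the least element, `a`, `b` the numbers of ascending and descending
steps.  DIO (board STN) gives `1 ≤ k ^ N |(b - a) log (4 / 3) + b log (9 / 8)|` (LOW).  The telescoping sum of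
`log x_(i+1) - log x_i` gives `|…| ≤ ∑ 1 / (3 x_i)` over the ascending steps (LGS), which is at most
`7 L / (3 X)` (SUM).  So `X ≤ 3 L k ^ N`.  An element is at most the square of the next local minimum, so
all `x_i ≤ X ^ (2 ^ L)` (SQR).  Runs are logarithmically short (WIN), so `k` is bounded (CNT, ARI, ASM).
-/

set_option autoImplicit false

namespace Pool.STN

/-- descending step number `i` -/
def dd (m i : ℕ) : Prop := F^[i] m % 3 = 0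

instance (m i : ℕ) : Decidable (dd m i) := inferInstanceAs (Decidable (_ = _))

/-- a local minimum at `j + 1` -/
def sw (m j : ℕ) : Prop := dd m j ∧ ¬ dd m (j + 1)

instance (m j : ℕ) : Decidable (sw m j) := inferInstanceAs (Decidable (_ ∧ _))

/-- the number of local minima -/
def nm (m k : ℕ) : ℕ := ((Finset.range k).filter fun j => sw m j).card

/-- LOW (60, needs DIO). Proof: `l = Nat.log 2 (a + b)`, `n = 5 * l + 55`: `(343 / 400) ^ 5 ≤ 1 / 2` and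
`(343 / 400) ^ 50 ≤ 1 / 1024`, so the second term of DIO (`u = b - a`, `v = b`, `|u|, |v| ≤ a + b`,
`14 * 27 (a + b) (343 / 400) ^ n`) is at most `1 / 2` (`a + b < 2 ^ (l + 1)`); `2965950 ≤ 2 ^ 22`, `1202 ≤ 2 ^ 11`,
so `1 ≤ 2 ^ 1221 (2 ^ l) ^ 110 |Λ|`, `2 ≤ a + b`: `N = 1331`. -/
def LOWStmt : Prop :=
  ∃ N : ℕ, ∀ a b : ℕ, 1 ≤ a → 1 ≤ b →
    (1 : ℝ) ≤ ((a + b : ℕ) : ℝ) ^ N *
      |((b : ℝ) - a) * Real.log (4 / 3) + b * Real.log (9 / 8)|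

/-- LGS (80). Proof: `log x_(i+1) - log x_i` is `- (log (4 / 3) + log (9 / 8))` for a descending step
(`log (2 / 3)`), and `log (4 / 3) + log (1 ± 1 / (4 x))` otherwise (`F x = (4 x ± 1) / 3`); sum over `i < k`
(`Finset.sum_range_sub`) and `|log (1 ± t)| ≤ t / (1 - t) ≤ 1 / (3 x)` for `t = 1 / (4 x)`, `x ≥ 1`. -/
def LGSStmt : Prop :=
  ∀ m k : ℕ, (∀ i, 2 ≤ F^[i] m) → F^[k] m = m →
    |((((Finset.range k).filter fun i => dd m i).card : ℝ) -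
          ((Finset.range k).filter fun i => ¬ dd m i).card) * Real.log (4 / 3) +
        ((Finset.range k).filter fun i => dd m i).card * Real.log (9 / 8)| ≤
      ∑ i ∈ Finset.range k, if dd m i then (0 : ℝ) else 1 / (3 * (F^[i] m : ℝ))

/-- SUM (50). Proof: `g i = if dd m i then 0 else 1 / x_i`, `S = ∑ g i`.  `g (i + 1) ≤ (6 / 7) g i + (if sw m i then
1 / X else 0)`: two ascending steps `i`, `i + 1` have `x_(i+1) ≥ (7 / 6) x_i` as `(4 x - 1) / 3 ≥ 7 x / 6` for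
`x ≥ 2`.  `∑ g (i + 1) = ∑ g i` (`g k = g 0`, `Finset.sum_range_succ`, `Finset.sum_range_succ'`). -/
def SUMStmt : Prop :=
  ∀ m k : ℕ, (∀ i, 2 ≤ F^[i] m) → (∀ i, F^[i + k] m = F^[i] m) → ∀ X : ℝ, 0 < X →
    (∀ i, X ≤ (F^[i] m : ℝ)) →
    ∑ i ∈ Finset.range k, (if dd m i then (0 : ℝ) else 1 / (3 * (F^[i] m : ℝ))) ≤
      7 / 3 * (nm m k : ℝ) / X

/-- NML (40, needs TRI). Proof: `dd m i` iff `x_(i+1) < x_i` and not `dd m i` iff `x_i < x_(i+1)` (TRI); both kinds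
of steps occur among the `i < k` (periodicity), so there is a switch (`Nat.find`, or a period without a
switch would give `dd` for all later indices). -/
def NMLStmt : Prop :=
  ∀ m k : ℕ, 2 ≤ m → 1 ≤ k → F^[k] m = m → lm F m k = nm m k ∧ 1 ≤ nm m k ∧
    1 ≤ ((Finset.range k).filter fun i => dd m i).card ∧
    1 ≤ ((Finset.range k).filter fun i => ¬ dd m i).card

/-- SQR (60). Proof: downward induction on `i ≤ s` of the stronger statement, with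
`c i = #{j ∈ [i, s) : sw m j}`: if not `dd m i` then `x_i ≤ x_s ^ (2 ^ c i)`; if `dd m i` then
`3 ^ e * (x_i / 2 ^ e) ≤ x_s ^ (2 ^ c i)` for all `e` with `2 ^ e ∣ x_i`.  If `dd m i` and `dd m (i + 1)`:
`x_i = 3 y`, `x_(i+1) = 2 y`, use `e + 1`.  If `dd m i` and not `dd m (i + 1)`: `c i = c (i + 1) + 1` and
`3 ^ (e + 1) t ≤ (2 ^ (e + 1) t) ^ 2`.  Otherwise `x_i ≤ x_(i+1)`, `c i = c (i + 1)`. -/
def SQRStmt : Prop :=
  ∀ m : ℕ, (∀ i, 2 ≤ F^[i] m) → ∀ s i : ℕ, i ≤ s → ¬ dd m s →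
    F^[i] m ≤ (F^[s] m) ^ (2 ^ ((Finset.Ico i s).filter fun j => sw m j).card)

/-- WIN (60). Proof: `5 B` ascending steps in a row multiply by at least `(7 / 6) ^ (5 B) ≥ 2 ^ B`
(`x_(i+1) ≥ (7 / 6) x_i`, `(7 / 6) ^ 5 ≥ 2`), and `x ≥ 2`; so there is a descending step `j₀ < i + 5 B + 1`; then
`2 B + 1` descending steps in a row are impossible (`x_(i+1) = (2 / 3) x_i`, `(3 / 2) ^ 2 ≥ 2`); take the last
descending step of the run. -/
def WINStmt : Prop :=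
  ∀ m B : ℕ, (∀ i, 2 ≤ F^[i] m) → (∀ i, F^[i] m ≤ 2 ^ B) → ∀ i, ∃ j, i ≤ j ∧ j < i + (7 * B + 7) ∧ sw m j

/-- CNT (40). Proof: the blocks `[q W, (q + 1) W)`, `q < k / W`, each contain a `j < k` with `d j`, so
`k / W ≤ n` and `k < (k / W + 1) W`. -/
def CNTStmt : Prop :=
  ∀ (d : ℕ → Prop) [DecidablePred d] (k W : ℕ), 1 ≤ W → (∀ i, ∃ j, i ≤ j ∧ j < i + W ∧ d j) →
    k ≤ (((Finset.range k).filter fun j => d j).card + 1) * W

/-- ARI (80). Proof: `3 ≤ k ^ 2`, so `X ≤ k ^ (N + 3)`; `l = Nat.clog 2 k`, `k ≤ 2 ^ l`, so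
`X ^ (2 ^ L) ≤ 2 ^ B` for `B = l (N + 3) 2 ^ L`, hence `k ≤ (L + 1) (7 B + 7) ≤ M l`,
`M = 7 (N + 4) 4 ^ L`; `2 ^ (l - 1) < k ≤ M l` gives `k ≤ 16 M ^ 2` (`l ^ 2 ≤ 8 * 2 ^ (l - 1)`), so
`k ≤ (784 (N + 4) ^ 2 * 16) ^ L`; and `x ≤ 2 ^ B`, `B ≤ k (N + 3) 2 ^ L`. -/
def ARIStmt : Prop :=
  ∀ N : ℕ, ∃ C : ℝ, 0 < C ∧ ∀ k L X x : ℕ, 2 ≤ k → 1 ≤ L → L ≤ k → 2 ≤ X → X ≤ 3 * L * k ^ N →
    (∀ B : ℕ, X ^ (2 ^ L) ≤ 2 ^ B → k ≤ (L + 1) * (7 * B + 7)) → x ≤ X ^ (2 ^ L) →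
    (k : ℝ) ≤ Real.exp (C * L) ∧ (x : ℝ) ≤ Real.exp (Real.exp (C * L))

/-- ASM (100, needs TRI LOW LGS SUM NML SQR WIN CNT ARI). The theorem for `F`.  Proof: `X` = the least element of
the orbit, `x_s = X`, `s < k` (not `dd m s`, as `x_(s+1) ≥ x_s`); LOW, LGS, SUM: `X ≤ 3 L k ^ N`; for `i` take
`s' = s + q k ∈ [i, i + k)`: `x_i ≤ X ^ (2 ^ L)` by SQR (`Nat.filter_Ico_card_eq_of_periodic`); WIN, CNT, ARI. -/
def ASMStmt : Prop :=
  ∃ C : ℝ, 0 < C ∧ ∀ m k : ℕ, 2 ≤ m → 1 ≤ k → F^[k] m = m →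
    (k : ℝ) ≤ Real.exp (C * lm F m k) ∧ (m : ℝ) ≤ Real.exp (Real.exp (C * lm F m k))

end Pool.STN
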